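import Pool.Agent.helper97.UC.M1a

/-!
# M1 : main lower bound

`F` has `Inv`, `E_l < E' ≤ n0 + 1` (`l = last`, `n0 = card V`).  Claim: there are `δ, K, fM > 0`
with `f z ≥ fM` for all `z ∈ Reg δ δ` with `env^{E'}(z) ≥ K tot z`.

Put `E'' = (E_l + E')/2`, `κ = 2(E'' - E_l) > 0`.  Note `0 ≤ E_l < E'' < E'` and
`E_0 ≤ 2 E_l < 2E'` (`half`).  Abbreviate `T' = env^{E'}`, `T = env^{E''}`; `C` denotes constants
depending only on the flag, `τ`, `E'`.

*Constants, in this order.*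
1. `B = (3 + κ C5)/κ`, `C5 = 8/(E'-E_l)` (from `env_gap`: if `T' ≥ 0` then
   `T ≥ T' + (E'-E'') o2/4`, so `o2 ≤ C5 T` and `T ≥ T'`).
2. `Inv` gives `δo` (shrink it, `Reg` is monotone) below all `δ0`'s and so small that
   `C (1 + B) δo² ≤ 1/8` for the constant of `W_drift`.
3. `A := max (1/δo²) (C (k+1)²)` (`C` from `xs_drift`); `δ1 > 0` so small that
   `2 A B δ1 ≤ 1/8`, `δ1 ≤ δo²`, and `κ/(2δ1) ≥ 4 B2` where `B2` is fixed in the exit function.
4. `Inv` with this `δ1` gives `δx, ε1` (shrink `δx ≤ δo`).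
5. `K1` large depending on everything, in particular `K1 ≥ 4δ1/δx²`.

`R = {z ∈ Reg δx δo : K1 tot z ≤ T'(z), T(z) < δ1 a_l(z)²}`.
On `R`: `T ≥ T' ≥ K1 tot`, `o2 ≤ C5 T`, `tot ≤ T/K1`.

*Drifts on `R`.*  `off_drift` with `E''`: `gen o2 ≤ g := 2T + 2E'' o2 - (3/2)S + C tot`.
* `U1 := a_0/T'`.  `A_drift` with `E'`: `gen U1 ≤ (E_0 - 2E' + C/K1) U1 ≤ 0`.
* `Y := (o2 - B T)/a_l²`.  `W_drift` with `E''`, `α = 1`, `β = B` (`d² ≥ 0` dropped):
  `a_l² gen Y ≤ 2T + 2E'' o2 - (3/2)S + C tot - 2B E'' T - 2E_l(o2 - B T) +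
   C(1+B)(δo² S + tot) = 2T + κ o2 - κ B T - (3/2) S + C(1+B)δo² S + C(1+B) tot
   ≤ (2 + κ C5 - κ B) T - S + C(1+B) tot = -T - S + C(1+B) tot ≤ -(S + tot)`,
  since `T ≥ K1 tot` and `K1 ≥ C(1+B) + 1`.
* `gen xs ≤ C xs (S+tot)/a_l² ≤ C(k+1)² δx (S + tot)/a_l²`.
* `H := K1 C6 U1 + A (Y + 2Bδ1) + xs/δx` (`tot ≤ C6 a_0`, `Facts1.tot_le`): `gen H ≤ 0` on `R`.
* `H ≥ 0` on `R`: `Y ≥ -B T/a_l² ≥ -Bδ1`.
*Exits* `z' = z^w ∉ R`, `z ∈ R`.  `reg_step`: `z' ∈ Reg (2δx) (2δo)`; `env_half` (for `E'` and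
`E''`): `T'(z'), T(z') > 0`; `env_step`: `T(z') ≤ T(z) + C(√o2+1) ≤ δ1 a_l(z)² + C(δo a_l(z) + 1)
≤ 2δ1 a_l(z')²` (as `a_l ≥ 1/δx²` is huge, `reg_large`; make `δx` small in step 4).
So `Y(z') ≥ -2Bδ1` and `H(z') ≥ 0`.
 - If `T'(z') < K1 tot(z')`: `H ≥ K1 C6 a_0/T' ≥ K1 tot/T' > 1` (`tot(z') ≤ C6 a_0(z')`; use
   `reg_facts1` for `Reg (2δx) (2δo)`).
 - else if a ratio fails for `δx`: `xs/δx > 1`.
 - else if `o2(z') > δo² a_j²` for some `j` (`a_j ≥ a_l`): `Y + 2Bδ1 ≥ o2/a_l² - B T/a_l² + 2Bδ1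
   ≥ δo²`, `H ≥ A δo² ≥ 1`.
 - `tot(z') ≤ δx² a_j²` always holds when `T' (z')≥ K1 tot(z')`: `tot ≤ T'/K1 ≤ T/K1 ≤
   2δ1 a_l²/K1 ≤ δx² a_l²/2`  (`T' ≤ T` by `env_mono`).
 - else `z' ∈ Reg δx δo`, `T'(z') ≥ K1 tot(z')`, so `T(z') ≥ δ1 a_l(z')²`, and
   `env^{E_l} ≥ env^{E''} = T` (`env_mono`), so `f z' ≥ ε1` by `Inv`, and `H(z') ≥ 0 ≥ -1`.
*Exit function* `U := a_l²/T + B2 o2/T`, `T = env^{E''}`.  `L_drift` (with `E''`):
`gen(a_l²/T) ≤ (-κ + C/K1) a_l²/T + C S/T`; `V_drift`: `gen(o2/T) ≤ g/T - 2E'' o2/T + (C/K1) o2/T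
≤ 2 - (3/2) S/T + C/K1 + (C/K1) C5 ≤ 3 - (3/2) S/T`.  With `B2 := C` (the constant of `L_drift`):
`gen U ≤ -(κ - C/K1) a_l²/T + 3 B2 ≤ -(3κ/4) a_l²/T + 3B2`; since `a_l²/T ≥ 1/δ1` and
`κ/(2δ1) ≥ 4B2`, `3B2 ≤ (3κ/8)(1/δ1) ≤ (3κ/8) a_l²/T`, so `gen U ≤ -(3κ/8) a_l²/T`; and `B2 o2/T ≤ B2 C5 ≤ B2 C5 δ1 a_l²/T`, so `U ≤ (1 + B2 C5 δ1) a_l²/T`:
`gen U ≤ -c U`.  `U ≥ 1/δ1`.  `U ≥ 0` at exits.
*Conclusion*: `min_principle` with `f₀ = ε1`: `f ≥ (ε1/2)(1-H)` on `R`.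
Let `z ∈ Reg δ δ` with `T'(z) ≥ K tot z`: `T ≤ 16(n0+1) o2 ≤ 16(n0+1)δ² a_l² < δ1 a_l²`, so
`z ∈ R`; `K1C6 U1 ≤ K1 C6 tot/(K tot) = K1C6/K ≤ 1/8`; `A(Y+2Bδ1) ≤ A δ² + 1/8 ≤ 1/4`;
`xs/δx ≤ (k+1)² δ/δx ≤ 1/8`.  So `H ≤ 1/2`, `f z ≥ ε1/4 =: fM`.
-/

namespace UC
open Finset
variable {V : Type} [Fintype V] [DecidableEq V] {s k : ℕ}
variable {G : SimpleGraph V} [DecidableRel G.Adj]

theorem main_lower {f : St V s → ℝ} (hf : BadF G f) (F : Flag G s (k + 1)) (τ : ℝ)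
    (hτ : 0 < τ) (hτ0 : τ ≤ tau0 V) (hI : Inv F τ f) (E' : ℝ) (hE : F.E (Fin.last k) < E')
    (hE' : E' ≤ cV V + 1) :
    ∃ δ > 0, ∃ K > 0, ∃ fM > 0, ∀ z, F.Reg δ δ z → K * tot z ≤ F.env E' τ z → fM ≤ f z := by
  obtain ⟨δ0, hδ0, K0, hK0, C, hC, HT⟩ := F.m1_tools τ hτ hτ0
  obtain ⟨δi, hδi, HI⟩ := hI
  have hn0 : 0 ≤ cV V := by unfold cV; positivity
  have hEl0 : 0 ≤ F.E (Fin.last k) := F.nonneg _
  obtain ⟨κ, hκdef⟩ : ∃ κ, κ = E' - F.E (Fin.last k) := ⟨_, rfl⟩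
  have hκ : 0 < κ := by rw [hκdef]; linarith
  obtain ⟨Em, hEm⟩ : ∃ Em, Em = (F.E (Fin.last k) + E') / 2 := ⟨_, rfl⟩
  have hEm1 : F.E (Fin.last k) ≤ Em := by rw [hEm]; linarith
  have hEm2 : Em ≤ E' := by rw [hEm]; linarith
  have hEmκ : 2 * Em - 2 * F.E (Fin.last k) = κ := by rw [hEm, hκdef]; ring
  have hE'κ : E' - Em = κ / 2 := by rw [hEm, hκdef]; ring
  have hab' : |E'| ≤ cV V + 2 := by rw [abs_le]; constructor <;> linarith
  have habm : |Em| ≤ cV V + 2 := by rw [abs_le]; constructor <;> linarith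
  have habl : |F.E (Fin.last k)| ≤ cV V + 2 := by rw [abs_le]; constructor <;> linarith
  have hE0 : F.E 0 ≤ 2 * F.E (Fin.last k) := by
    have := F.half 0 (Fin.last k)
    linarith
  obtain ⟨B, hB⟩ : ∃ B, B = 11 / κ := ⟨_, rfl⟩
  have hB0 : 0 < B := by rw [hB]; positivity
  have hBκ : B * κ = 11 := by rw [hB]; field_simp
  have hC0 : 0 < C := by linarith
  obtain ⟨δo, hδo, hδo1, hδo2, hδo3, hδo4⟩ : ∃ δo, 0 < δo ∧ δo ≤ δi ∧ 2 * δo ≤ δ0 ∧ δo ≤ 1 ∧
      C * (1 + B) * δo ^ 2 ≤ 1 / 2 := by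
    have h1 : 0 < 1 / (2 * (C * (1 + B))) := by positivity
    refine ⟨min δi (min (δ0 / 2) (min 1 (1 / (2 * (C * (1 + B)))))), ?_, ?_, ?_, ?_, ?_⟩
    · simp only [lt_min_iff]
      exact ⟨hδi, by linarith, by norm_num, h1⟩
    · exact min_le_left _ _
    · have : min δi (min (δ0 / 2) (min 1 (1 / (2 * (C * (1 + B)))))) ≤ δ0 / 2 :=
        (min_le_right _ _).trans (min_le_left _ _)
      linarith
    · exact (min_le_right _ _).trans ((min_le_right _ _).trans (min_le_left _ _))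
    · set d := min δi (min (δ0 / 2) (min 1 (1 / (2 * (C * (1 + B))))))
      have hd0 : 0 ≤ d := by
        apply le_min hδi.le
        apply le_min (by linarith)
        exact le_min (by norm_num) h1.le
      have hd1 : d ≤ 1 := (min_le_right _ _).trans ((min_le_right _ _).trans (min_le_left _ _))
      have hd2 : d ≤ 1 / (2 * (C * (1 + B))) :=
        (min_le_right _ _).trans ((min_le_right _ _).trans (min_le_right _ _))
      have hd3 : d ^ 2 ≤ d := by nlinarith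
      have h3 : C * (1 + B) * d ^ 2 ≤ C * (1 + B) * (1 / (2 * (C * (1 + B)))) :=
        mul_le_mul_of_nonneg_left (hd3.trans hd2) (by positivity)
      refine h3.trans (le_of_eq ?_)
      field_simp
  obtain ⟨A, hA⟩ : ∃ A, A = 1 / δo ^ 2 + C * ((k + 1 : ℕ) : ℝ) ^ 2 := ⟨_, rfl⟩
  have hA0 : 0 < A := by rw [hA]; positivity
  have hA1 : 1 ≤ A * δo ^ 2 := by
    rw [hA, add_mul]
    have h1 : 1 / δo ^ 2 * δo ^ 2 = 1 := by field_simp
    have h2 : 0 ≤ C * ((k + 1 : ℕ) : ℝ) ^ 2 * δo ^ 2 := by positivity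
    linarith
  have hA2 : C * ((k + 1 : ℕ) : ℝ) ^ 2 ≤ A := by
    rw [hA]
    have : 0 ≤ 1 / δo ^ 2 := by positivity
    linarith
  obtain ⟨δ1, hδ1, hδ11, hδ12⟩ : ∃ δ1, 0 < δ1 ∧ A * (8 * B * δ1) ≤ 1 / 8 ∧ δ1 * (8 * C) ≤ κ := by
    refine ⟨min (1 / (64 * (A * B))) (κ / (8 * C)), lt_min (by positivity) (by positivity), ?_, ?_⟩
    · have h1 : A * (8 * B * min (1 / (64 * (A * B))) (κ / (8 * C))) ≤
          A * (8 * B * (1 / (64 * (A * B)))) := by
        have : 0 ≤ A * (8 * B) := by positivity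
        have h2 := mul_le_mul_of_nonneg_left (min_le_left (1 / (64 * (A * B))) (κ / (8 * C))) this
        linarith
      refine h1.trans (le_of_eq ?_)
      field_simp
      norm_num
    · have h1 := mul_le_mul_of_nonneg_right (min_le_right (1 / (64 * (A * B))) (κ / (8 * C)))
        (by positivity : 0 ≤ 8 * C)
      refine h1.trans (le_of_eq ?_)
      field_simp
  obtain ⟨δx', hδx', ε1, hε1, HI1⟩ := HI δ1 hδ1
  obtain ⟨δx, hδx, hδxo, hδxx⟩ : ∃ δx, 0 < δx ∧ δx ≤ δo ∧ δx ≤ δx' :=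
    ⟨min δx' δo, lt_min hδx' hδo, min_le_right _ _, min_le_left _ _⟩
  obtain ⟨K1, hK10, hK1, hK11, hK12, hK13, hK14⟩ : ∃ K1, K0 ≤ K1 ∧ 1 ≤ K1 ∧ C / K1 ≤ κ / 4 ∧
      C * (2 + B) + 1 ≤ K1 ∧ 8 * δ1 ≤ δx ^ 2 * K1 ∧ C / K1 * (1 + 8 / κ) ≤ 1 := by
    have p1 : 0 < 4 * C / κ := by positivity
    have p2 : 0 < C * (2 + B) := by positivity
    have p3 : 0 < 8 * δ1 / δx ^ 2 := by positivity
    have p4 : 0 < C * (1 + 8 / κ) := by positivity
    have p5 : 0 < K0 + 1 + 4 * C / κ + C * (2 + B) + 8 * δ1 / δx ^ 2 + C * (1 + 8 / κ) := by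
      linarith
    refine ⟨K0 + 1 + 4 * C / κ + C * (2 + B) + 8 * δ1 / δx ^ 2 + C * (1 + 8 / κ), by linarith,
      by linarith, ?_, by linarith, ?_, ?_⟩
    · rw [div_le_iff₀ p5]
      have h1 : κ / 4 * (4 * C / κ) = C := by field_simp
      have h2 : κ / 4 * (4 * C / κ) ≤ κ / 4 * (K0 + 1 + 4 * C / κ + C * (2 + B) +
          8 * δ1 / δx ^ 2 + C * (1 + 8 / κ)) :=
        mul_le_mul_of_nonneg_left (by linarith) (by positivity)
      linarith
    · have h1 : δx ^ 2 * (8 * δ1 / δx ^ 2) = 8 * δ1 := by field_simp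
      have h2 : δx ^ 2 * (8 * δ1 / δx ^ 2) ≤ δx ^ 2 * (K0 + 1 + 4 * C / κ + C * (2 + B) +
          8 * δ1 / δx ^ 2 + C * (1 + 8 / κ)) :=
        mul_le_mul_of_nonneg_left (by linarith) (by positivity)
      linarith
    · rw [div_mul_eq_mul_div, div_le_one p5]
      linarith
  have hK1p : 0 < K1 := by linarith
  obtain ⟨R, hR⟩ : ∃ R : Set (St V s), R = {z | F.Reg δx δo z ∧ K1 * tot z ≤ F.env E' τ z ∧
      F.env Em τ z < δ1 * F.a (Fin.last k) (nR z) ^ 2} := ⟨_, rfl⟩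
  have hRm : ∀ z, z ∈ R ↔ F.Reg δx δo z ∧ K1 * tot z ≤ F.env E' τ z ∧
      F.env Em τ z < δ1 * F.a (Fin.last k) (nR z) ^ 2 := fun z => by rw [hR]; rfl
  have hmono : ∀ z, F.env E' τ z ≤ F.env Em τ z := fun z =>
    F.env_mono Em E' τ habm hab' hEm2 hτ hτ0 z
  -- facts on `R`
  have hfacts : ∀ z ∈ R, F.ToolsAt τ K0 C δx δo z ∧ 1 ≤ tot z ∧ 0 < F.env E' τ z ∧
      0 < F.env Em τ z ∧ K1 * tot z ≤ F.env Em τ z ∧ κ * F.o2 (nR z) ≤ 8 * F.env Em τ z ∧
      0 ≤ F.o2 (nR z) ∧ 0 < F.a (Fin.last k) (nR z) ^ 2 := by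
    intro z hz
    obtain ⟨hz1, hz2, hz3⟩ := (hRm z).1 hz
    have ht := HT δx δo hδx hδxo (by linarith) z hz1
    have htot : 1 ≤ tot z := hz1.1
    have hT' : 0 < F.env E' τ z := by
      have : 0 < K1 * tot z := by positivity
      linarith
    have hgap := ht.gap E' Em hab' habm hEm2 hT'.le
    have hal := ht.one_le
    have ho := F.o2_nonneg (nR z)
    refine ⟨ht, htot, hT', lt_of_lt_of_le hT' (hmono z), hz2.trans (hmono z), ?_, ho,
      by positivity⟩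
    rw [hE'κ] at hgap
    linarith
  -- drift of the first quotient
  have hU1 : ∀ z ∈ R, gen G (fun y => F.a 0 (nR y) / F.env E' τ y) z ≤ 0 := by
    intro z hz
    obtain ⟨ht, htot, hT', hT, hKT, hκo, ho, hal2⟩ := hfacts z hz
    refine (ht.Ad E' hab' K1 hK10 ((hRm z).1 hz).2.1).trans ?_
    have h1 : F.E 0 - 2 * E' + C / K1 ≤ 0 := by
      rw [hκdef] at hK11 hκ
      linarith
    have ha0 : 0 ≤ F.a 0 (nR z) := by
      have := ht.last_le 0
      have := ht.one_le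
      linarith
    exact mul_nonpos_of_nonpos_of_nonneg h1 (by positivity)
  -- drift of `Y`
  have hY : ∀ z ∈ R, gen G (fun y => (1 * F.o2 (nR y) - B * F.env Em τ y) /
      F.a (Fin.last k) (nR y) ^ 2) z ≤
      -((F.S z.c (nR z) + tot z) / F.a (Fin.last k) (nR z) ^ 2) := by
    intro z hz
    obtain ⟨ht, htot, hT', hT, hKT, hκo, ho, hal2⟩ := hfacts z hz
    refine (ht.Wd Em habm 1 B zero_le_one hB0.le _ (ht.off Em habm)).trans ?_
    rw [← neg_div]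
    refine div_le_div_of_nonneg_right ?_ hal2.le
    have hS := ht.S0
    have h1 : C * (1 + B) * (δo ^ 2 * F.S z.c (nR z)) ≤ 1 / 2 * F.S z.c (nR z) := by
      have := mul_le_mul_of_nonneg_right hδo4 hS
      linarith
    have h2 : (C * (2 + B) + 1) * tot z ≤ F.env Em τ z :=
      (mul_le_mul_of_nonneg_right hK12 (by linarith)).trans hKT
    have h3 : (2 * Em - 2 * F.E (Fin.last k)) * F.o2 (nR z) ≤ 8 * F.env Em τ z := by
      rw [hEmκ]; exact hκo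
    have h4 : B * (2 * Em - 2 * F.E (Fin.last k)) * F.env Em τ z = 11 * F.env Em τ z := by
      rw [hEmκ, hBκ]
    nlinarith
  -- drift of the sum of ratios
  have hX : ∀ z ∈ R, gen G F.xs z ≤ C * ((k + 1 : ℕ) : ℝ) ^ 2 * δx *
      ((F.S z.c (nR z) + tot z) / F.a (Fin.last k) (nR z) ^ 2) := by
    intro z hz
    obtain ⟨ht, htot, hT', hT, hKT, hκo, ho, hal2⟩ := hfacts z hz
    refine ht.xd.trans ?_
    rw [mul_div_assoc]
    have hS := ht.S0
    refine mul_le_mul_of_nonneg_right ?_ (by positivity)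
    have h1 := (F.xs_le δx δo hδx.le z ((hRm z).1 hz).1).2
    have h2 := mul_le_mul_of_nonneg_left h1 hC0.le
    linarith
  obtain ⟨H, hH⟩ : ∃ H : St V s → ℝ, H = fun y => K1 * C * (F.a 0 (nR y) / F.env E' τ y) +
      A * ((1 * F.o2 (nR y) - B * F.env Em τ y) / F.a (Fin.last k) (nR y) ^ 2 + 8 * B * δ1) +
      1 / δx * F.xs y := ⟨_, rfl⟩
  have hHg : ∀ z ∈ R, gen G H z ≤ 0 := by
    intro z hz
    obtain ⟨ht, htot, hT', hT, hKT, hκo, ho, hal2⟩ := hfacts z hz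
    rw [hH, gen_lin3]
    have h1 : K1 * C * gen G (fun y => F.a 0 (nR y) / F.env E' τ y) z ≤ 0 :=
      mul_nonpos_of_nonneg_of_nonpos (by positivity) (hU1 z hz)
    have h2 := mul_le_mul_of_nonneg_left (hY z hz) hA0.le
    have h3 := mul_le_mul_of_nonneg_left (hX z hz) (by positivity : 0 ≤ 1 / δx)
    have h4 : 1 / δx * (C * ((k + 1 : ℕ) : ℝ) ^ 2 * δx *
        ((F.S z.c (nR z) + tot z) / F.a (Fin.last k) (nR z) ^ 2)) =
        C * ((k + 1 : ℕ) : ℝ) ^ 2 *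
        ((F.S z.c (nR z) + tot z) / F.a (Fin.last k) (nR z) ^ 2) := by
      field_simp
    rw [h4] at h3
    have hS := ht.S0
    have h5 := mul_le_mul_of_nonneg_right hA2
      (by positivity : 0 ≤ (F.S z.c (nR z) + tot z) / F.a (Fin.last k) (nR z) ^ 2)
    linarith
  have hH0 : ∀ z ∈ R, 0 ≤ H z := by
    intro z hz
    obtain ⟨ht, htot, hT', hT, hKT, hκo, ho, hal2⟩ := hfacts z hz
    have ha0 : 0 ≤ F.a 0 (nR z) := by
      have := ht.last_le 0
      have := ht.one_le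
      linarith
    have h1 : 0 ≤ K1 * C * (F.a 0 (nR z) / F.env E' τ z) := by positivity
    have h2 : 0 ≤ 1 / δx * F.xs z :=
      mul_nonneg (by positivity) (F.xs_nonneg z ((hRm z).1 hz).1.2.2.1)
    have h3 : -(8 * B * δ1) ≤ (1 * F.o2 (nR z) - B * F.env Em τ z) /
        F.a (Fin.last k) (nR z) ^ 2 := by
      rw [le_div_iff₀ hal2]
      have h4 := mul_le_mul_of_nonneg_left ((hRm z).1 hz).2.2.le hB0.le
      have h5 : 0 ≤ B * (δ1 * F.a (Fin.last k) (nR z) ^ 2) := by positivity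
      linarith
    rw [hH]
    have h6 : 0 ≤ A * ((1 * F.o2 (nR z) - B * F.env Em τ z) /
        F.a (Fin.last k) (nR z) ^ 2 + 8 * B * δ1) := mul_nonneg hA0.le (by linarith)
    show 0 ≤ K1 * C * (F.a 0 (nR z) / F.env E' τ z) +
      A * ((1 * F.o2 (nR z) - B * F.env Em τ z) / F.a (Fin.last k) (nR z) ^ 2 + 8 * B * δ1) +
      1 / δx * F.xs z
    linarith
  -- facts at a state after one step
  have hstep : ∀ z ∈ R, ∀ w, 1 ≤ z.n w →
      F.Reg (2 * δx) (2 * δo) (step G z w) ∧ 0 < F.env E' τ (step G z w) ∧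
      0 < F.env Em τ (step G z w) ∧
      F.env Em τ (step G z w) ≤ 8 * δ1 * F.a (Fin.last k) (nR (step G z w)) ^ 2 ∧
      tot (step G z w) ≤ C * F.a 0 (nR (step G z w)) ∧
      1 ≤ F.a (Fin.last k) (nR (step G z w)) ∧
      (∀ j, F.a (Fin.last k) (nR (step G z w)) ≤ F.a j (nR (step G z w))) := by
    intro z hz w hw
    obtain ⟨ht, htot, hT', hT, hKT, hκo, ho, hal2⟩ := hfacts z hz
    obtain ⟨g1, g2, g3⟩ := ht.stp w hw
    have h1 := ht.half E' hab' K1 hK10 ((hRm z).1 hz).2.1 w hw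
    have h2 := ht.half Em habm K1 hK10 hKT w hw
    have hl := g2 (Fin.last k)
    have hal := ht.one_le
    have hal' := g1.2.2.1 (Fin.last k)
    have ht' := HT (2 * δx) (2 * δo) (by positivity) (by linarith) hδo2 _ g1
    refine ⟨g1, by linarith [h1.1, h1.2.1], by linarith [h2.1, h2.2.1], ?_, ht'.tot_le,
      ht'.one_le, ht'.last_le⟩
    have h3 : F.a (Fin.last k) (nR z) ^ 2 ≤ (2 * F.a (Fin.last k) (nR (step G z w))) ^ 2 :=
      pow_le_pow_left₀ (by linarith) hl 2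
    have h4 := ((hRm z).1 hz).2.2
    have h5 := mul_le_mul_of_nonneg_left h3 hδ1.le
    have h6 := h2.2.2
    nlinarith
  have hstepH : ∀ z ∈ R, ∀ w, 1 ≤ z.n w →
      0 ≤ K1 * C * (F.a 0 (nR (step G z w)) / F.env E' τ (step G z w)) ∧
      F.o2 (nR (step G z w)) / F.a (Fin.last k) (nR (step G z w)) ^ 2 ≤
        (1 * F.o2 (nR (step G z w)) - B * F.env Em τ (step G z w)) /
        F.a (Fin.last k) (nR (step G z w)) ^ 2 + 8 * B * δ1 ∧
      0 ≤ F.o2 (nR (step G z w)) / F.a (Fin.last k) (nR (step G z w)) ^ 2 ∧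
      0 ≤ F.xs (step G z w) := by
    intro z hz w hw
    obtain ⟨g1, gT', gT, gTa, gt, gal, glast⟩ := hstep z hz w hw
    have ha0 : 0 ≤ F.a 0 (nR (step G z w)) := by linarith [glast 0]
    have ho := F.o2_nonneg (nR (step G z w))
    refine ⟨by positivity, ?_, by positivity, F.xs_nonneg _ g1.2.2.1⟩
    have hal2 : 0 < F.a (Fin.last k) (nR (step G z w)) ^ 2 := by positivity
    have h1 : 8 * B * δ1 = 8 * B * δ1 * F.a (Fin.last k) (nR (step G z w)) ^ 2 /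
        F.a (Fin.last k) (nR (step G z w)) ^ 2 := by field_simp
    rw [h1, ← add_div]
    refine div_le_div_of_nonneg_right ?_ hal2.le
    have h2 := mul_le_mul_of_nonneg_left gTa hB0.le
    linarith
  have hexit : ∀ z ∈ R, ∀ w, 1 ≤ z.n w → step G z w ∉ R →
      (ε1 ≤ f (step G z w) ∧ -1 ≤ H (step G z w)) ∨ 1 ≤ H (step G z w) := by
    intro z hz w hw hz'
    obtain ⟨g1, gT', gT, gTa, gt, gal, glast⟩ := hstep z hz w hw
    obtain ⟨q1, q2, q3, q4⟩ := hstepH z hz w hw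
    set z' := step G z w with hz'def
    have hal2 : 0 < F.a (Fin.last k) (nR z') ^ 2 := by positivity
    have hHz : H z' = K1 * C * (F.a 0 (nR z') / F.env E' τ z') +
      A * ((1 * F.o2 (nR z') - B * F.env Em τ z') / F.a (Fin.last k) (nR z') ^ 2 + 8 * B * δ1) +
      1 / δx * F.xs z' := by rw [hH]
    have p1 : A * (F.o2 (nR z') / F.a (Fin.last k) (nR z') ^ 2) ≤
        A * ((1 * F.o2 (nR z') - B * F.env Em τ z') / F.a (Fin.last k) (nR z') ^ 2 +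
        8 * B * δ1) := mul_le_mul_of_nonneg_left q2 hA0.le
    have p2 : 0 ≤ A * (F.o2 (nR z') / F.a (Fin.last k) (nR z') ^ 2) := by positivity
    have p3 : 0 ≤ 1 / δx * F.xs z' := by positivity
    have hHnn : 0 ≤ H z' := by rw [hHz]; linarith
    by_cases c1 : F.env E' τ z' < K1 * tot z'
    · right
      have h1 : 1 ≤ K1 * C * (F.a 0 (nR z') / F.env E' τ z') := by
        rw [← mul_div_assoc, le_div_iff₀ gT']
        have := mul_le_mul_of_nonneg_left gt hK1p.le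
        linarith
      rw [hHz]
      linarith
    push Not at c1
    by_cases c2 : ∃ i j, i < j ∧ δx * F.a i (nR z') < F.a j (nR z')
    · right
      obtain ⟨i, j, hij, hv⟩ := c2
      have h1 := F.xs_gt δx z' g1.2.2.1 i j hij hv
      have h2 : 1 ≤ 1 / δx * F.xs z' := by
        rw [one_div, ← div_eq_inv_mul, le_div_iff₀ hδx]
        linarith
      rw [hHz]
      linarith
    push Not at c2
    by_cases c3 : ∃ j, δo ^ 2 * F.a j (nR z') ^ 2 < F.o2 (nR z')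
    · right
      obtain ⟨j, hj⟩ := c3
      have h1 : F.a (Fin.last k) (nR z') ^ 2 ≤ F.a j (nR z') ^ 2 :=
        pow_le_pow_left₀ (by linarith) (glast j) 2
      have h2 : δo ^ 2 ≤ F.o2 (nR z') / F.a (Fin.last k) (nR z') ^ 2 := by
        rw [le_div_iff₀ hal2]
        have := mul_le_mul_of_nonneg_left h1 (by positivity : 0 ≤ δo ^ 2)
        linarith
      have h3 := mul_le_mul_of_nonneg_left h2 hA0.le
      rw [hHz]
      linarith
    push Not at c3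
    left
    refine ⟨?_, by linarith⟩
    have h1 : tot z' ≤ δx ^ 2 * F.a (Fin.last k) (nR z') ^ 2 := by
      have h2 : K1 * tot z' ≤ 8 * δ1 * F.a (Fin.last k) (nR z') ^ 2 :=
        c1.trans ((hmono z').trans gTa)
      have h3 := mul_le_mul_of_nonneg_right hK13 hal2.le
      have h4 : K1 * tot z' ≤ K1 * (δx ^ 2 * F.a (Fin.last k) (nR z') ^ 2) := by linarith
      exact le_of_mul_le_mul_left h4 hK1p
    have hreg : F.Reg δx δo z' := by
      refine ⟨g1.1, g1.2.1, g1.2.2.1, fun i j hij => c2 i j hij, fun j => c3 j, fun j => ?_⟩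
      refine h1.trans (mul_le_mul_of_nonneg_left ?_ (by positivity))
      exact pow_le_pow_left₀ (by linarith) (glast j) 2
    have h5 : δ1 * F.a (Fin.last k) (nR z') ^ 2 ≤ F.env Em τ z' := by
      by_contra h6
      push Not at h6
      exact hz' ((hRm z').2 ⟨hreg, c1, h6⟩)
    refine HI1 z' (F.Reg_mono hδx.le hδo.le hδxx hδo1 z' hreg) (h5.trans ?_)
    exact F.env_mono _ _ τ habl habm hEm1 hτ hτ0 z'
  -- exit function
  obtain ⟨U, hU⟩ : ∃ U : St V s → ℝ, U = fun y => F.a (Fin.last k) (nR y) ^ 2 / F.env Em τ y +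
      C * (F.o2 (nR y) / F.env Em τ y) := ⟨_, rfl⟩
  have hUlow : ∀ z ∈ R, 1 / δ1 ≤ F.a (Fin.last k) (nR z) ^ 2 / F.env Em τ z := by
    intro z hz
    obtain ⟨ht, htot, hT', hT, hKT, hκo, ho, hal2⟩ := hfacts z hz
    rw [div_le_div_iff₀ hδ1 hT]
    linarith [((hRm z).1 hz).2.2]
  have hUu : ∀ z ∈ R, 1 / δ1 ≤ U z := by
    intro z hz
    obtain ⟨ht, htot, hT', hT, hKT, hκo, ho, hal2⟩ := hfacts z hz
    have h1 := hUlow z hz
    have h2 : 0 ≤ C * (F.o2 (nR z) / F.env Em τ z) := by positivity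
    rw [hU]
    show 1 / δ1 ≤ F.a (Fin.last k) (nR z) ^ 2 / F.env Em τ z + C * (F.o2 (nR z) / F.env Em τ z)
    linarith
  have hUg : ∀ z ∈ R, gen G U z ≤ -(3 * κ / 16 * U z) := by
    intro z hz
    obtain ⟨ht, htot, hT', hT, hKT, hκo, ho, hal2⟩ := hfacts z hz
    rw [hU, gen_lin2]
    have h1 := ht.Ld Em habm K1 hK10 hKT
    have h2 := ht.Vd Em habm K1 hK10 hKT _ (ht.off Em habm)
    have hS := ht.S0
    have hlow := hUlow z hz
    set T := F.env Em τ z with hTdef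
    set al2 := F.a (Fin.last k) (nR z) ^ 2 with hal2def
    set o := F.o2 (nR z) with hodef
    set S := F.S z.c (nR z) with hSdef
    have hST : 0 ≤ S / T := by positivity
    have hoT : o / T ≤ 8 / κ := by
      rw [div_le_div_iff₀ hT hκ]
      linarith
    have htT : tot z / T ≤ 1 / K1 := by
      rw [div_le_div_iff₀ hT hK1p]
      linarith
    have h3 : (2 * T + 2 * Em * o - 3 / 2 * S + C * tot z) / T =
        2 + 2 * Em * (o / T) - 3 / 2 * (S / T) + C * (tot z / T) := by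
      field_simp
    rw [h3] at h2
    have h4 : C * (tot z / T) ≤ C / K1 := by
      have := mul_le_mul_of_nonneg_left htT hC0.le
      rw [mul_one_div] at this
      exact this
    have h5 : C / K1 * (o / T) ≤ C / K1 * (8 / κ) :=
      mul_le_mul_of_nonneg_left hoT (by positivity)
    have h6 : gen G (fun y => F.o2 (nR y) / F.env Em τ y) z ≤ 3 - S / T := by
      have : C / K1 * (1 + 8 / κ) = C / K1 + C / K1 * (8 / κ) := by ring
      linarith
    have h7 := mul_le_mul_of_nonneg_left h6 hC0.le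
    have h8 : (2 * F.E (Fin.last k) - 2 * Em + C / K1) * (al2 / T) ≤
        -(3 * κ / 4) * (al2 / T) := by
      refine mul_le_mul_of_nonneg_right ?_ (by positivity)
      linarith
    -- `3 C ≤ (3κ/8) (al2/T)`
    have h9 : 3 * C ≤ 3 * κ / 8 * (al2 / T) := by
      have h10 : 3 * κ / 8 * (1 / δ1) ≤ 3 * κ / 8 * (al2 / T) :=
        mul_le_mul_of_nonneg_left hlow (by positivity)
      refine le_trans ?_ h10
      rw [mul_one_div, le_div_iff₀ hδ1]
      linarith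
    have h11 : C * (o / T) ≤ al2 / T := by
      have h12 : C * (o / T) ≤ C * (8 / κ) := mul_le_mul_of_nonneg_left hoT hC0.le
      refine h12.trans (le_trans ?_ hlow)
      rw [← mul_div_assoc, div_le_div_iff₀ hκ hδ1]
      linarith
    show gen G (fun y => F.a (Fin.last k) (nR y) ^ 2 / F.env Em τ y) z +
      C * gen G (fun y => F.o2 (nR y) / F.env Em τ y) z ≤
      -(3 * κ / 16 * (al2 / T + C * (o / T)))
    have h13 : 3 * κ / 16 * (al2 / T + C * (o / T)) ≤ 3 * κ / 16 * (2 * (al2 / T)) :=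
      mul_le_mul_of_nonneg_left (by linarith) (by positivity)
    linarith
  have hUe : ∀ z ∈ R, ∀ w, 1 ≤ z.n w → step G z w ∉ R → 0 ≤ U (step G z w) := by
    intro z hz w hw _
    obtain ⟨g1, gT', gT, gTa, gt, gal, glast⟩ := hstep z hz w hw
    have ho := F.o2_nonneg (nR (step G z w))
    rw [hU]
    show 0 ≤ F.a (Fin.last k) (nR (step G z w)) ^ 2 / F.env Em τ (step G z w) +
      C * (F.o2 (nR (step G z w)) / F.env Em τ (step G z w))
    positivity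
  have hmp := min_principle f H U R ε1 (1 / δ1) (3 * κ / 16) hf.nonneg hf.harm hε1.le
    (by positivity) (by positivity) (fun z hz => (hfacts z hz).2.1) hHg
    (fun z hz => by linarith [hH0 z hz]) hexit hUu hUg hUe
  -- conclusion
  have hkk : 0 < ((k + 1 : ℕ) : ℝ) ^ 2 := by positivity
  obtain ⟨δ, hδ, hδa, hδb, hδc, hδd⟩ : ∃ δ, 0 < δ ∧ δ ≤ δx ∧
      32 * (cV V + 1) * δ ≤ δ1 ∧ 8 * A * δ ≤ 1 ∧ 8 * ((k + 1 : ℕ) : ℝ) ^ 2 * δ ≤ δx := by
    have p1 : 0 < δ1 / (32 * (cV V + 1)) := by positivity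
    have p2 : 0 < 1 / (8 * A) := by positivity
    have p3 : 0 < δx / (8 * ((k + 1 : ℕ) : ℝ) ^ 2) := by positivity
    refine ⟨min δx (min (δ1 / (32 * (cV V + 1))) (min (1 / (8 * A))
      (δx / (8 * ((k + 1 : ℕ) : ℝ) ^ 2)))), ?_, min_le_left _ _, ?_, ?_, ?_⟩
    · simp only [lt_min_iff]
      exact ⟨hδx, p1, p2, p3⟩
    · have h1 : min δx (min (δ1 / (32 * (cV V + 1))) (min (1 / (8 * A))
        (δx / (8 * ((k + 1 : ℕ) : ℝ) ^ 2)))) ≤ δ1 / (32 * (cV V + 1)) :=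
        (min_le_right _ _).trans (min_le_left _ _)
      rw [le_div_iff₀ (by positivity)] at h1
      linarith
    · have h1 : min δx (min (δ1 / (32 * (cV V + 1))) (min (1 / (8 * A))
        (δx / (8 * ((k + 1 : ℕ) : ℝ) ^ 2)))) ≤ 1 / (8 * A) :=
        (min_le_right _ _).trans ((min_le_right _ _).trans (min_le_left _ _))
      rw [le_div_iff₀ (by positivity)] at h1
      linarith
    · have h1 : min δx (min (δ1 / (32 * (cV V + 1))) (min (1 / (8 * A))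
        (δx / (8 * ((k + 1 : ℕ) : ℝ) ^ 2)))) ≤ δx / (8 * ((k + 1 : ℕ) : ℝ) ^ 2) :=
        (min_le_right _ _).trans ((min_le_right _ _).trans (min_le_right _ _))
      rw [le_div_iff₀ (by positivity)] at h1
      linarith
  refine ⟨δ, hδ, 8 * K1 * C, by positivity, ε1 / 4, by positivity, fun z hz hzK => ?_⟩
  have hδ1' : δ ≤ 1 := by linarith
  have hδsq : δ ^ 2 ≤ δ := by nlinarith
  have hzreg : F.Reg δx δo z := F.Reg_mono hδ.le hδ.le hδa (hδa.trans hδxo) z hz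
  have ht := HT δx δo hδx hδxo (by linarith) z hzreg
  have htot : 1 ≤ tot z := hz.1
  have hal := ht.one_le
  have hal2 : 0 < F.a (Fin.last k) (nR z) ^ 2 := by positivity
  have hK1t : K1 * tot z ≤ F.env E' τ z := by
    refine le_trans (mul_le_mul_of_nonneg_right ?_ (by linarith)) hzK
    nlinarith
  have ho2 : F.o2 (nR z) ≤ δ ^ 2 * F.a (Fin.last k) (nR z) ^ 2 := hz.2.2.2.2.1 (Fin.last k)
  have hzR : z ∈ R := by
    refine (hRm z).2 ⟨hzreg, hK1t, ?_⟩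
    have h1 := ht.up Em habm
    have h2 : 16 * (cV V + 1) * F.o2 (nR z) ≤ 16 * (cV V + 1) * (δ * F.a (Fin.last k) (nR z) ^ 2) := by
      refine mul_le_mul_of_nonneg_left (ho2.trans ?_) (by positivity)
      exact mul_le_mul_of_nonneg_right hδsq hal2.le
    have h3 := mul_le_mul_of_nonneg_right hδb hal2.le
    have h4 : 0 < δ1 * F.a (Fin.last k) (nR z) ^ 2 := by positivity
    linarith
  obtain ⟨_, _, hT', hT, hKT, hκo, ho, _⟩ := hfacts z hzR
  have hconc := hmp z hzR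
  have hH12 : H z ≤ 1 / 2 := by
    have h1 : K1 * C * (F.a 0 (nR z) / F.env E' τ z) ≤ 1 / 8 := by
      rw [← mul_div_assoc, div_le_iff₀ hT']
      have h2 := mul_le_mul_of_nonneg_left ht.zero_le_tot (by positivity : 0 ≤ K1 * C)
      linarith
    have h2 : (1 * F.o2 (nR z) - B * F.env Em τ z) / F.a (Fin.last k) (nR z) ^ 2 ≤ δ := by
      rw [div_le_iff₀ hal2]
      have h3 : 0 ≤ B * F.env Em τ z := by positivity
      have h4 := mul_le_mul_of_nonneg_right hδsq hal2.le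
      linarith
    have h3 := mul_le_mul_of_nonneg_left h2 hA0.le
    have h4 : 1 / δx * F.xs z ≤ 1 / 8 := by
      rw [one_div, ← div_eq_inv_mul, div_le_iff₀ hδx]
      have := (F.xs_le δ δ hδ.le z hz).2
      linarith
    rw [hH]
    show K1 * C * (F.a 0 (nR z) / F.env E' τ z) +
      A * ((1 * F.o2 (nR z) - B * F.env Em τ z) / F.a (Fin.last k) (nR z) ^ 2 + 8 * B * δ1) +
      1 / δx * F.xs z ≤ 1 / 2
    have h5 : A * ((1 * F.o2 (nR z) - B * F.env Em τ z) / F.a (Fin.last k) (nR z) ^ 2 +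
        8 * B * δ1) = A * ((1 * F.o2 (nR z) - B * F.env Em τ z) / F.a (Fin.last k) (nR z) ^ 2) +
        A * (8 * B * δ1) := by ring
    linarith
  have h1 : ε1 / 2 * (1 / 2) ≤ ε1 / 2 * (1 - H z) :=
    mul_le_mul_of_nonneg_left (by linarith) (by positivity)
  linarith

end UC
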