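import Pool.Agent.helper25.UC.P1
import Pool.Agent.helper25.UC.B7
import Pool.Agent.helper25.UC.C1
import Pool.Agent.helper25.UC.C2
import Pool.Agent.helper25.UC.C3
import Pool.Agent.helper25.UC.C4

/-!
# M1a : pooled constants for M1
-/


namespace UC
open Finset
variable {V : Type} [Fintype V] [DecidableEq V] {s k : ℕ}
variable {G : SimpleGraph V} [DecidableRel G.Adj]

/-- all the facts and drifts at one state, with common constants -/
structure Flag.ToolsAt (F : Flag G s (k + 1)) (τ K0 C δx δo : ℝ) (z : St V s) : Prop where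
  S0 : 0 ≤ F.S z.c (nR z)
  last_le : ∀ j, F.a (Fin.last k) (nR z) ≤ F.a j (nR z)
  one_le : 1 ≤ F.a (Fin.last k) (nR z)
  zero_le_tot : F.a 0 (nR z) ≤ tot z
  tot_le : tot z ≤ C * F.a 0 (nR z)
  up : ∀ E : ℝ, |E| ≤ cV V + 2 → F.env E τ z ≤ 16 * (cV V + 1) * F.o2 (nR z)
  gap : ∀ E' E'' : ℝ, |E'| ≤ cV V + 2 → |E''| ≤ cV V + 2 → E'' ≤ E' → 0 ≤ F.env E' τ z →
    F.env E' τ z + (E' - E'') * F.o2 (nR z) / 4 ≤ F.env E'' τ z
  off : ∀ E : ℝ, |E| ≤ cV V + 2 → gen G (fun y => F.o2 (nR y)) z ≤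
    2 * F.env E τ z + 2 * E * F.o2 (nR z) - 3 / 2 * F.S z.c (nR z) + C * tot z
  Ad : ∀ E : ℝ, |E| ≤ cV V + 2 → ∀ K : ℝ, K0 ≤ K → K * tot z ≤ F.env E τ z →
    gen G (fun y => F.a 0 (nR y) / F.env E τ y) z ≤
      (F.E 0 - 2 * E + C / K) * (F.a 0 (nR z) / F.env E τ z)
  Wd : ∀ E : ℝ, |E| ≤ cV V + 2 → ∀ α β : ℝ, 0 ≤ α → 0 ≤ β → ∀ g : ℝ,
    gen G (fun y => F.o2 (nR y)) z ≤ g →
    gen G (fun y => (α * F.o2 (nR y) - β * F.env E τ y) / F.a (Fin.last k) (nR y) ^ 2) z ≤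
      (α * g - β * (2 * E * F.env E τ z) -
        2 * F.E (Fin.last k) * (α * F.o2 (nR z) - β * F.env E τ z) +
        C * (α + β) * (δo ^ 2 * F.S z.c (nR z) + tot z)) / F.a (Fin.last k) (nR z) ^ 2
  xd : gen G F.xs z ≤ C * F.xs z * (F.S z.c (nR z) + tot z) / F.a (Fin.last k) (nR z) ^ 2
  Ld : ∀ E : ℝ, |E| ≤ cV V + 2 → ∀ K : ℝ, K0 ≤ K → K * tot z ≤ F.env E τ z →
    gen G (fun y => F.a (Fin.last k) (nR y) ^ 2 / F.env E τ y) z ≤
      (2 * F.E (Fin.last k) - 2 * E + C / K) * (F.a (Fin.last k) (nR z) ^ 2 / F.env E τ z) +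
        C * (F.S z.c (nR z) / F.env E τ z)
  Vd : ∀ E : ℝ, |E| ≤ cV V + 2 → ∀ K : ℝ, K0 ≤ K → K * tot z ≤ F.env E τ z → ∀ g : ℝ,
    gen G (fun y => F.o2 (nR y)) z ≤ g →
    gen G (fun y => F.o2 (nR y) / F.env E τ y) z ≤
      g / F.env E τ z - 2 * E * (F.o2 (nR z) / F.env E τ z) +
        C / K * (F.o2 (nR z) / F.env E τ z)
  half : ∀ E : ℝ, |E| ≤ cV V + 2 → ∀ K : ℝ, K0 ≤ K → K * tot z ≤ F.env E τ z →
    ∀ w, 1 ≤ z.n w → 0 < F.env E τ z ∧ F.env E τ z ≤ 2 * F.env E τ (step G z w) ∧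
      F.env E τ (step G z w) ≤ 2 * F.env E τ z
  stp : ∀ w, 1 ≤ z.n w → F.Reg (2 * δx) (2 * δo) (step G z w) ∧
    (∀ j, F.a j (nR z) ≤ 2 * F.a j (nR (step G z w))) ∧
    (∀ j, F.a j (nR (step G z w)) ≤ 2 * F.a j (nR z))

theorem Flag.m1_tools (F : Flag G s (k + 1)) (τ : ℝ) (hτ : 0 < τ) (hτ0 : τ ≤ tau0 V) :
    ∃ δ0 > 0, ∃ K0 > 0, ∃ C, 1 ≤ C ∧ ∀ δx δo : ℝ, 0 < δx → δx ≤ δo → δo ≤ δ0 →
      ∀ z, F.Reg δx δo z → F.ToolsAt τ K0 C δx δo z := by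
  obtain ⟨d1, hd1, c1, hc1, C1, hC1, H1⟩ := F.reg_facts1
  obtain ⟨d2, hd2, H2⟩ := F.env_bounds τ hτ hτ0
  obtain ⟨d3, hd3, C3, hC3, H3⟩ := F.off_drift τ hτ hτ0
  obtain ⟨d4, hd4, K4, hK4, C4, hC4, H4⟩ := F.A_drift τ hτ hτ0
  obtain ⟨d5, hd5, C5, hC5, H5⟩ := F.W_drift τ hτ hτ0
  obtain ⟨d6, hd6, C6, hC6, H6⟩ := F.xs_drift
  obtain ⟨d7, hd7, K7, hK7, C7, hC7, H7⟩ := F.L_drift τ hτ hτ0
  obtain ⟨d8, hd8, K8, hK8, C8, hC8, H8⟩ := F.V_drift τ hτ hτ0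
  obtain ⟨d9, hd9, K9, hK9, H9⟩ := F.env_half τ hτ hτ0
  obtain ⟨d10, hd10, C10, hC10, H10⟩ := F.reg_step
  have hmin : ∃ d, 0 < d ∧ d ≤ d1 ∧ d ≤ d2 ∧ d ≤ d3 ∧ d ≤ d4 ∧ d ≤ d5 ∧ d ≤ d6 ∧ d ≤ d7 ∧
      d ≤ d8 ∧ d ≤ d9 ∧ d ≤ d10 := by
    refine ⟨min d1 (min d2 (min d3 (min d4 (min d5 (min d6 (min d7 (min d8 (min d9 d10)))))))),
      ?_, ?_⟩
    · simp only [lt_min_iff]
      exact ⟨hd1, hd2, hd3, hd4, hd5, hd6, hd7, hd8, hd9, hd10⟩
    · refine ⟨?_, ?_, ?_, ?_, ?_, ?_, ?_, ?_, ?_, ?_⟩ <;> simp [min_le_iff]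
  obtain ⟨d, hd, e1, e2, e3, e4, e5, e6, e7, e8, e9, e10⟩ := hmin
  refine ⟨d, hd, K4 + K7 + K8 + K9, by positivity, 1 + C1 + C3 + C4 + C5 + C6 + C7 + C8,
    by linarith, ?_⟩
  intro δx δo h0 hxo ho z hz
  have h0o : 0 ≤ δo := h0.le.trans hxo
  obtain ⟨fa, fa1⟩ := H1 δx δo h0.le (by linarith) h0o (by linarith) z hz
  obtain ⟨_, hup, hgap⟩ := H2 δx δo h0.le (by linarith) h0o (by linarith) z hz
  have hS := fa.S_nonneg
  have ha1 := fa1.one_le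
  have ht : 1 ≤ tot z := hz.1
  have ha0 : 1 ≤ F.a 0 (nR z) := ha1.trans (fa1.last_le 0)
  have ho2 := F.o2_nonneg (nR z)
  have hal2 : 0 < F.a (Fin.last k) (nR z) ^ 2 := by positivity
  have hKpos : ∀ K : ℝ, K4 + K7 + K8 + K9 ≤ K → 0 < K := fun K hK => by linarith
  have henv : ∀ E K : ℝ, K4 + K7 + K8 + K9 ≤ K → K * tot z ≤ F.env E τ z → 0 < F.env E τ z := by
    intro E K hK h
    have := hKpos K hK
    have : 0 < K * tot z := by positivity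
    linarith
  have hxs := F.xs_nonneg z hz.2.2.1
  refine ⟨hS, fa1.last_le, ha1, fa1.zero_le_tot, ?_, hup, hgap, ?_, ?_, ?_, ?_, ?_, ?_, ?_, ?_⟩
  · refine fa1.tot_le.trans (mul_le_mul_of_nonneg_right (by linarith) (by linarith))
  · intro E hE
    refine (H3 E hE δx δo h0.le (by linarith) h0o (by linarith) z hz).trans ?_
    have : C3 * tot z ≤ (1 + C1 + C3 + C4 + C5 + C6 + C7 + C8) * tot z :=
      mul_le_mul_of_nonneg_right (by linarith) (by linarith)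
    linarith
  · intro E hE K hK hKt
    obtain ⟨c, r, hcr⟩ := F.exists_mx E τ hE hτ hτ0 z
    have hK' := hKpos K hK
    have hT := henv E K hK hKt
    refine (H4 E hE K (by linarith) δx δo h0 hxo (by linarith) z hz hKt c r hcr).trans ?_
    have h1 : 0 ≤ F.a 0 (nR z) * dsq z.c (nR z) c r / (4 * τ ^ 2 * F.env E τ z ^ 2) := by
      have := dsq_nonneg z.c (nR z) c r
      positivity
    have h2 : C4 / K ≤ (1 + C1 + C3 + C4 + C5 + C6 + C7 + C8) / K :=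
      div_le_div_of_nonneg_right (by linarith) hK'.le
    have h3 : 0 ≤ F.a 0 (nR z) / F.env E τ z := by positivity
    have h4 := mul_le_mul_of_nonneg_right h2 h3
    nlinarith
  · intro E hE α β hα hβ g hg
    obtain ⟨c, r, hcr⟩ := F.exists_mx E τ hE hτ hτ0 z
    refine (H5 E hE α β hα hβ δx δo h0 hxo (by linarith) z hz c r hcr g hg).trans ?_
    refine div_le_div_of_nonneg_right ?_ hal2.le
    have h1 : 0 ≤ dsq z.c (nR z) c r / (2 * τ ^ 2) := by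
      have := dsq_nonneg z.c (nR z) c r
      positivity
    have h2 : C5 * (α + β) * (δo ^ 2 * F.S z.c (nR z) + tot z) ≤
        (1 + C1 + C3 + C4 + C5 + C6 + C7 + C8) * (α + β) * (δo ^ 2 * F.S z.c (nR z) + tot z) := by
      have h3 : 0 ≤ δo ^ 2 * F.S z.c (nR z) + tot z := by positivity
      refine mul_le_mul_of_nonneg_right (mul_le_mul_of_nonneg_right ?_ (by linarith)) h3
      linarith
    have h4 : 0 ≤ β * (dsq z.c (nR z) c r / (2 * τ ^ 2)) := mul_nonneg hβ h1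
    linarith
  · refine (H6 δx δo h0 hxo (by linarith) z hz).trans ?_
    refine div_le_div_of_nonneg_right ?_ hal2.le
    refine mul_le_mul_of_nonneg_right (mul_le_mul_of_nonneg_right ?_ hxs) (by linarith)
    linarith
  · intro E hE K hK hKt
    have hK' := hKpos K hK
    have hT := henv E K hK hKt
    refine (H7 E hE K (by linarith) δx δo h0 hxo (by linarith) z hz hKt).trans ?_
    have h2 : C7 / K ≤ (1 + C1 + C3 + C4 + C5 + C6 + C7 + C8) / K :=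
      div_le_div_of_nonneg_right (by linarith) hK'.le
    have h3 : 0 ≤ F.a (Fin.last k) (nR z) ^ 2 / F.env E τ z := by positivity
    have h4 := mul_le_mul_of_nonneg_right h2 h3
    have h5 : 0 ≤ F.S z.c (nR z) / F.env E τ z := by positivity
    have h6 : C7 * (F.S z.c (nR z) / F.env E τ z) ≤
        (1 + C1 + C3 + C4 + C5 + C6 + C7 + C8) * (F.S z.c (nR z) / F.env E τ z) :=
      mul_le_mul_of_nonneg_right (by linarith) h5
    nlinarith
  · intro E hE K hK hKt g hg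
    obtain ⟨c, r, hcr⟩ := F.exists_mx E τ hE hτ hτ0 z
    have hK' := hKpos K hK
    have hT := henv E K hK hKt
    refine (H8 E hE K (by linarith) δx δo h0 hxo (by linarith) z hz hKt c r hcr g hg).trans ?_
    have h1 : 0 ≤ F.o2 (nR z) * dsq z.c (nR z) c r / (4 * τ ^ 2 * F.env E τ z ^ 2) := by
      have := dsq_nonneg z.c (nR z) c r
      positivity
    have h2 : C8 / K ≤ (1 + C1 + C3 + C4 + C5 + C6 + C7 + C8) / K :=
      div_le_div_of_nonneg_right (by linarith) hK'.le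
    have h3 : 0 ≤ F.o2 (nR z) / F.env E τ z := by positivity
    have h4 := mul_le_mul_of_nonneg_right h2 h3
    linarith
  · intro E hE K hK hKt w hw
    exact H9 E hE K (by linarith) δx δo h0 hxo (by linarith) z hz hKt w hw
  · intro w hw
    obtain ⟨g1, _, _, g4, g5⟩ := H10 δx δo h0 hxo (by linarith) z hz w hw
    exact ⟨g1, g4, g5⟩


theorem gen_lin3 (a b c e : ℝ) (P Q R : St V s → ℝ) (z : St V s) :
    gen G (fun y => a * P y + b * (Q y + e) + c * R y) z =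
      a * gen G P z + b * gen G Q z + c * gen G R z := by
  unfold gen
  rw [mul_sum, mul_sum, mul_sum, ← sum_add_distrib, ← sum_add_distrib]
  exact sum_congr rfl fun w _ => by ring

theorem gen_lin2 (b : ℝ) (P Q : St V s → ℝ) (z : St V s) :
    gen G (fun y => P y + b * Q y) z = gen G P z + b * gen G Q z := by
  unfold gen
  rw [mul_sum, ← sum_add_distrib]
  exact sum_congr rfl fun w _ => by ring

end UC
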